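import Pool.Agent.MWT.Stmts

/-!
# Squad MWT, row LWC (helper49): the letters of the main block of the big word
-/

set_option autoImplicit false

namespace Pool.Agent.MWT.H49

open Pool.Agent.Helper14_MV Pool.Agent.Helper2_MV Pool.Agent.MVD Pool.Agent.MWT

theorem cl_mod (k a : ℕ) : cl k a % 3 = a % 3 := by
  unfold cl
  omega

theorem cl_light {k a d : ℕ} (hk : k < 7) (h : cl k a = 3 * d + 1) :
    k = d % 7 ∧ a = 3 * (d / 7) + 1 := by
  unfold cl at h
  omega

theorem cl_light' (d : ℕ) : cl (d % 7) (3 * (d / 7) + 1) = 3 * d + 1 := by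
  unfold cl
  omega

/-- the count of a light letter in a copy -/
theorem count_cp {n m : ℕ} {c : List ℕ} (hc : Cn n m c) {k d : ℕ} (hk : k < 7) (hd : d < 7 * m) :
    (cp k c).count (3 * d + 1) = if k = d % 7 then 1 else 0 := by
  by_cases h : k = d % 7
  · rw [if_pos h]
    have h1 := hc.li (d / 7) (by omega)
    have key : ∀ l : List ℕ, (l.map (cl k)).count (3 * d + 1) = l.count (3 * (d / 7) + 1) := by
      intro l
      induction l with
      | nil => rfl
      | cons a l ih =>
        rw [List.map_cons, List.count_cons, List.count_cons, ih]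
        congr 1
        by_cases ha : a = 3 * (d / 7) + 1
        · subst ha
          rw [h, cl_light']
          simp
        · rw [if_neg (fun h2 => ha (cl_light hk (by simpa using h2)).2), if_neg (by simpa using ha)]
    exact (key c).trans h1
  · rw [if_neg h]
    apply List.count_eq_zero.2
    intro h2
    obtain ⟨a, -, ha⟩ := List.mem_map.1 h2
    exact h (cl_light hk ha).1

theorem cp_mem {n m : ℕ} {c : List ℕ} (hc : Cn n m c) {k s : ℕ} (hk : k < 7) (hs : s ∈ cp k c) :
    (∃ d < 7 * m, s = 3 * d + 1) ∨ (s % 3 = 0 ∧ 42 ≤ s) := by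
  obtain ⟨a, ha, rfl⟩ := List.mem_map.1 hs
  rcases hc.lo a ha with ⟨d, hd, rfl⟩ | ⟨h1, h2⟩
  · left
    refine ⟨7 * d + k, by omega, ?_⟩
    unfold cl
    omega
  · right
    unfold cl
    omega

theorem two_rep (j s : ℕ) (hj : 1 ≤ j) :
    ∃ l : List ℕ, List.replicate (j + 1) s = s :: s :: l := by
  obtain ⟨i, rfl⟩ : ∃ i, j = i + 1 := ⟨j - 1, by omega⟩
  exact ⟨List.replicate i s, by rw [List.replicate_succ, List.replicate_succ]⟩

theorem cp_two {n m : ℕ} {c : List ℕ} (hc : Cn n m c) (hn : 1 ≤ n) {k s : ℕ}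
    (hs : s ∈ cp k c) (h0 : s % 3 = 0) : ∃ X Y, cp k c = X ++ (s :: s :: Y) := by
  obtain ⟨a, ha, rfl⟩ := List.mem_map.1 hs
  rw [cl_mod] at h0
  obtain ⟨A, C, h1, -, -⟩ := hc.bl a ha h0
  obtain ⟨l, hl⟩ := two_rep n a hn
  refine ⟨A.map (cl k), (l ++ C).map (cl k), ?_⟩
  unfold cp
  conv_lhs => rw [h1, hl]
  simp

theorem count_two {l X Y : List ℕ} {s : ℕ} (h : l = X ++ (s :: s :: Y)) : 2 ≤ l.count s := by
  rw [h, List.count_append, List.count_cons_self, List.count_cons_self]
  omega

theorem nl_cp {n m : ℕ} {c : List ℕ} (hc : Cn n m c) (k : ℕ) : nl (cp k c) = m := by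
  have h1 : nl (cp k c) = nl c := by
    unfold nl cp
    have : ((fun a => decide (a % 3 = 1)) ∘ cl k) = fun a => decide (a % 3 = 1) := by
      funext a
      simp only [Function.comp_apply, cl_mod]
    rw [List.filter_map, List.length_map, this]
  rw [h1]
  unfold nl
  have hnd : (c.filter (fun a => decide (a % 3 = 1))).Nodup := by
    rw [List.nodup_iff_count_le_one]
    intro a
    by_cases ha : a ∈ c.filter (fun a => decide (a % 3 = 1))
    · obtain ⟨h2, h3⟩ := List.mem_filter.1 ha
      have h3' : a % 3 = 1 := by simpa using h3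
      rcases hc.lo a h2 with ⟨d, hd, rfl⟩ | ⟨h4, -⟩
      · have h5 := hc.li d hd
        have h6 := (List.filter_sublist (p := fun a => decide (a % 3 = 1)) (l := c)).count_le
          (3 * d + 1)
        omega
      · omega
    · rw [List.count_eq_zero.2 ha]
      exact Nat.zero_le 1
  have hnd2 : ((List.range m).map (fun d => 3 * d + 1)).Nodup :=
    List.Nodup.map (fun a b h => by simpa using h) List.nodup_range
  have hp : (c.filter (fun a => decide (a % 3 = 1))).Perm
      ((List.range m).map (fun d => 3 * d + 1)) := by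
    rw [List.perm_ext_iff_of_nodup hnd hnd2]
    intro a
    rw [List.mem_filter, List.mem_map]
    constructor
    · rintro ⟨h2, h3⟩
      have h3' : a % 3 = 1 := by simpa using h3
      rcases hc.lo a h2 with ⟨d, hd, rfl⟩ | ⟨h4, -⟩
      · exact ⟨d, List.mem_range.2 hd, rfl⟩
      · omega
    · rintro ⟨d, hd, rfl⟩
      refine ⟨?_, ?_⟩
      · apply List.count_pos_iff.1
        rw [hc.li d (List.mem_range.1 hd)]
        exact Nat.one_pos
      · rw [decide_eq_true_eq]
        omega
  rw [hp.length_eq, List.length_map, List.length_range]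

/-- members of the big word -/
theorem mem_Lw {a b s : ℕ} {c : List ℕ} (hs : s ∈ Lw a b c) :
    s = 0 ∨ s = 3 ∨ s = 6 ∨ ∃ k < 7, s ∈ cp k c := by
  unfold Lw P at hs
  simp only [List.mem_append, List.mem_cons, List.mem_replicate] at hs
  rcases hs with h | h | h | h | h | h | h | h | h | h | h | h | h
  · exact Or.inl h.2
  · exact Or.inr (Or.inr (Or.inr ⟨0, by norm_num, h⟩))
  · exact Or.inr (Or.inl h)
  · exact Or.inr (Or.inr (Or.inr ⟨1, by norm_num, h⟩))
  · exact Or.inr (Or.inr (Or.inr ⟨2, by norm_num, h⟩))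
  · exact Or.inr (Or.inr (Or.inl h.2))
  · exact Or.inr (Or.inr (Or.inr ⟨3, by norm_num, h⟩))
  · exact Or.inl h.2
  · exact Or.inr (Or.inr (Or.inr ⟨4, by norm_num, h⟩))
  · exact Or.inr (Or.inl h)
  · exact Or.inr (Or.inr (Or.inr ⟨5, by norm_num, h⟩))
  · exact Or.inr (Or.inr (Or.inr ⟨6, by norm_num, h⟩))
  · exact Or.inr (Or.inr (Or.inl h.2))

/-- the count in the big word -/
theorem count_Lw (a b s : ℕ) (c : List ℕ) : (Lw a b c).count s =
    (P a 0).count s + ((cp 0 c).count s + ((if 3 = s then 1 else 0) + ((cp 1 c).count s +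
      ((cp 2 c).count s + ((P b 6).count s + ((cp 3 c).count s + ((P a 0).count s +
        ((cp 4 c).count s + ((if 3 = s then 1 else 0) + ((cp 5 c).count s + ((cp 6 c).count s +
          (P b 6).count s))))))))))) := by
  unfold Lw
  simp only [List.count_append, List.count_cons, beq_iff_eq]
  omega

theorem count_P (a x s : ℕ) : (P a x).count s = if x = s then a else 0 := by
  unfold P
  rw [List.count_replicate]
  simp only [beq_iff_eq]

/-- **LWC** -/
theorem lwc : LwcStmt := by
  intro n m a b c hc hn ha hb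
  refine ⟨?_, ?_, ?_, ?_, ?_, fun k _ => nl_cp hc k, ?_⟩
  · intro d hd
    rw [count_Lw, count_P, count_P, count_cp hc (k := 0) (by norm_num) hd,
      count_cp hc (k := 1) (by norm_num) hd, count_cp hc (k := 2) (by norm_num) hd,
      count_cp hc (k := 3) (by norm_num) hd, count_cp hc (k := 4) (by norm_num) hd,
      count_cp hc (k := 5) (by norm_num) hd, count_cp hc (k := 6) (by norm_num) hd,
      if_neg (show ¬ (0 = 3 * d + 1) by omega), if_neg (show ¬ (3 = 3 * d + 1) by omega),
      if_neg (show ¬ (6 = 3 * d + 1) by omega)]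
    have h7 : d % 7 < 7 := Nat.mod_lt _ (by norm_num)
    generalize d % 7 = r at h7
    interval_cases r <;> rfl
  · intro s hs h1
    rcases mem_Lw hs with h | h | h | ⟨k, hk, h⟩
    · omega
    · omega
    · omega
    · rcases cp_mem hc hk h with h2 | ⟨h2, -⟩
      · exact h2
      · omega
  · intro s hs h1
    rcases mem_Lw hs with h | h | h | ⟨k, hk, h⟩
    · omega
    · omega
    · omega
    · rcases cp_mem hc hk h with ⟨d, -, h2⟩ | ⟨h2, -⟩
      · omega
      · omega
  · intro s hs h1
    rw [count_Lw, count_P, count_P]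
    rcases mem_Lw hs with h | h | h | ⟨k, hk, h⟩
    · subst h
      rw [if_pos rfl]
      omega
    · subst h
      rw [if_pos rfl]
      omega
    · subst h
      rw [if_pos rfl]
      omega
    · obtain ⟨X, Y, hXY⟩ := cp_two hc hn h h1
      have h2 := count_two hXY
      interval_cases k <;> omega
  · intro s hs h1
    rcases mem_Lw hs with h | h | h | ⟨k, hk, h⟩
    · exact Or.inl h
    · exact Or.inr (Or.inl h)
    · exact Or.inr (Or.inr (Or.inl h))
    · rcases cp_mem hc hk h with ⟨d, -, h2⟩ | ⟨-, h2⟩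
      · omega
      · exact Or.inr (Or.inr (Or.inr h2))
  · intro k hk s hs h1
    refine ⟨?_, cp_two hc hn hs h1⟩
    rcases cp_mem hc hk hs with ⟨d, -, h2⟩ | ⟨-, h2⟩
    · omega
    · exact h2

end Pool.Agent.MWT.H49
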